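import Pool.Agent.L7h35.RQ5.Gen
import Pool.Agent.L7h44.RQ5.Nv
import Pool.Agent.L7h44.RQ5.Vn
import Pool.Agent.L7h65.RQ5.Upp
import Pool.Agent.L7h66.RQ5.Fek
import Pool.Agent.L7h73.RQ5.Sml

/-!
# Distinct quotients `a_j / (a_i, a_j)`: the exponent of `h(n)` exists

`log h(n) / log n` converges to a limit `L`, `1 / 2 ≤ L ≤ log 2 / log (1 + √2) = 0.7864...`, and
`h(n) ≥ n ^ L` for every `n ≥ 1`.

Proof. `h` is monotone and submultiplicative (vectors of exponents of primes), `n ≤ h(n)^2`. For the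
upper bound sum `∏ ρ ^ |x_i|` over the vectors `x ∈ {-M, ..., M}^d`, sorted by the sum of the positive
and the sum of the negative parts; the positive parts of the differences of the vectors in one
class have a bounded sum, and there are few of them.
-/

set_option autoImplicit false

open Filter Topology

namespace Pool.Agent.Results.MP_f9e5d9_nt.LimitExists

/-- the set of the quotients `b / (a, b)`, `a, b ∈ A` -/
def R (A : Finset ℕ) : Finset ℕ := (A ×ˢ A).image (fun p => p.2 / Nat.gcd p.1 p.2)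

/-- `h n` = the least size of `R A` over all sets `A` of `n` positive integers -/
noncomputable def h (n : ℕ) : ℕ :=
  sInf {k | ∃ A : Finset ℕ, (∀ a ∈ A, 0 < a) ∧ A.card = n ∧ (R A).card = k}

lemma h_eq : h = L7h35.RQ5.h := rfl

/-- The exponent of `h(n)` exists, and lies between `1/2` and `log 2 / log (1 + √2)`. -/
theorem result :
    (∃ L : ℝ, Tendsto (fun n : ℕ => Real.log (h n) / Real.log n) atTop (𝓝 L) ∧
      1 / 2 ≤ L ∧ L ≤ Real.log 2 / Real.log (1 + Real.sqrt 2) ∧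
      ∀ n : ℕ, 1 ≤ n → (n : ℝ) ^ L ≤ h n) ∧
    (∀ n : ℕ, n ≤ h n ^ 2) ∧ ∀ m n : ℕ, h (m * n) ≤ h m * h n := by
  rw [h_eq]
  have hSUB := L7h73.RQ5.s_SUB L7h44.RQ5.s_VN L7h44.RQ5.s_NV
  have hMON : L7h35.RQ5.S_MON := L7h73.RQ5.s_MON
  have hLOW : L7h35.RQ5.S_LOW := L7h73.RQ5.s_LOW
  obtain ⟨L, h1, h2, h3⟩ := L7h66.RQ5.s_FEK L7h35.RQ5.h (fun m n hmn => hMON m n hmn) hSUB hLOW
  have h4 : ∀ n : ℕ, n ≠ 0 → (n : ℝ) ^ L ≤ L7h35.RQ5.h n := by
    intro n hn
    rcases h3 n with h5 | h5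
    · exact h5
    · exact absurd h5 hn
  have h5 := L7h65.RQ5.s_UPP (L7h35.RQ5.s_GEN L7h44.RQ5.s_VN) L (by linarith) h4
  exact ⟨⟨L, h1, h2, h5, fun n hn => h4 n (by omega)⟩, hLOW, hSUB⟩

end Pool.Agent.Results.MP_f9e5d9_nt.LimitExists
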